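import Mathlib
import Pool.Agent.X191.CP.Main

set_option autoImplicit false

/-!
# Close pairs of exponents, for almost every amplitude

For an integer `b ≥ 2`, a real `β > 0` and a prime `p` let `W b β p` be the `p`-rough part (the
product, with multiplicity, of the prime factors larger than `p`) of the largest integer below
`β * b ^ p`. We call `p` an exponent of `β` if `W b β p` is prime. For `b = 2`, `β = 1` the number
`W b β p` is the Mersenne number `2 ^ p - 1`.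

We prove a convergence criterion for pairs of exponents with different primes `W b β p`, `W b β q`,
and for all pairs of exponents, and deduce: for almost every `β > 0` and every `ε > 0`, all but
finitely many pairs of exponents `p < q` with `q ≤ p + p / (log p) ^ (1 + ε)` satisfy
`W b β p = W b β q` and `q ≤ p + (1 + ε) log log p / log b`.

The upper bound for the measure of the event that both `p` and `q` are exponents is in the starting
library (`Pool.Agent.W66.near`, `Pool.Agent.H447R2.ML.pair_bound_sh`).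
-/

namespace Pool.Agent.Results.MP_9b2bac_nt.ClosePairs

open Filter Topology MeasureTheory

/-- The product, with multiplicity, of the prime factors of `m` that are larger than `p`. -/
def roughPart (p m : ℕ) : ℕ := (m.primeFactorsList.filter (fun r => p < r)).prod

/-- The `p`-rough part of the largest integer below `β * b ^ p`. -/
noncomputable def W (b : ℕ) (β : ℝ) (p : ℕ) : ℕ := roughPart p (⌈β * (b : ℝ) ^ p⌉₊ - 1)

/-- `(p, q)` is a pair of primes `p < q`, and both `W b β p` and `W b β q` are prime. -/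
def IsPair (b : ℕ) (β : ℝ) (x : ℕ × ℕ) : Prop :=
  x.1.Prime ∧ x.2.Prime ∧ x.1 < x.2 ∧ (W b β x.1).Prime ∧ (W b β x.2).Prime

open Pool.Agent.X191.CP
open Pool.Agent.H305R2 (ff NN)

lemma NN_eq {b : ℕ} (hb : 2 ≤ b) (t : ℝ) (p : ℕ) :
    NN (Real.log b * p + t) = ⌈Real.exp t * (b : ℝ) ^ p⌉₊ - 1 := by
  have hb0 : (0 : ℝ) < b := by positivity
  have e2 : Real.exp (Real.log b * p + t) = Real.exp t * (b : ℝ) ^ p := by
    rw [Real.exp_add, mul_comm (Real.log b), Real.exp_nat_mul, Real.exp_log hb0]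
    ring
  unfold NN
  rw [e2]

lemma W_eq {b : ℕ} (hb : 2 ≤ b) (t : ℝ) (p : ℕ) :
    W b (Real.exp t) p = Pool.Agent.H305R2.roughPart p (NN (Real.log b * p + t)) := by
  rw [NN_eq hb]
  rfl

lemma ff_eq {b : ℕ} (hb : 2 ≤ b) (t : ℝ) (p : ℕ) (h : (W b (Real.exp t) p).Prime) :
    ff p (Real.log b * p + t) = 1 := by
  rw [W_eq hb] at h
  unfold ff
  rw [if_pos h]

lemma mersenne {p : ℕ} (hp : p.Prime) : W 2 1 p = 2 ^ p - 1 := by
  have h := Pool.Agent.W66S.repunit_special (b := 2) le_rfl hp (by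
    intro h
    exact hp.one_lt.ne' (Nat.dvd_one.1 h))
  have e1 : ⌈(1 / (((2 : ℕ) : ℝ) - 1)) * ((2 : ℕ) : ℝ) ^ p⌉₊ = ⌈(1 : ℝ) * ((2 : ℕ) : ℝ) ^ p⌉₊ := by
    congr 1
    push_cast
    norm_num
  rw [e1, Nat.geomSum_eq le_rfl] at h
  have h2 : W 2 1 p = Pool.Agent.H305R2.roughPart p (⌈(1 : ℝ) * ((2 : ℕ) : ℝ) ^ p⌉₊ - 1) := rfl
  rw [h2, h]
  norm_num

/-- the criterion for pairs with different primes -/
lemma distinct {b : ℕ} (hb : 2 ≤ b) (S : Set (ℕ × ℕ))
    (hS : Summable (fun x : ℕ × ℕ => {x | x ∈ S ∧ x.1.Prime ∧ x.2.Prime ∧ x.1 < x.2}.indicator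
      (fun x : ℕ × ℕ => Real.log x.1 / x.1 * (Real.log x.2 / x.2)) x)) :
    ∀ᵐ β : ℝ, 0 < β → {x | x ∈ S ∧ IsPair b β x ∧ W b β x.1 ≠ W b β x.2}.Finite := by
  refine Pool.Agent.W66S.ae_of_exp (P := fun β : ℝ =>
    {x | x ∈ S ∧ IsPair b β x ∧ W b β x.1 ≠ W b β x.2}.Finite) ?_
  have h := pairs_ae hb (f := fd b) (G := fun p q => w p * w q) (measurable_fd b) (fd_nonneg b)
    (fun _ _ => le_rfl) (fd_le b) (fun b0 => fd_bound hb b0)
    {x | x ∈ S ∧ x.1.Prime ∧ x.2.Prime ∧ x.1 < x.2} (fun x hx => ⟨hx.2.1.two_le, hx.2.2.2⟩) hS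
  filter_upwards [h] with t ht
  refine (ht.union ((Set.finite_Iio b).prod (Set.finite_Iio b))).subset ?_
  rintro x ⟨hx, ⟨hp, hq, hpq, h1, h2⟩, hne⟩
  by_cases hbx : x.2 < b
  · exact Or.inr ⟨show x.1 < b by omega, hbx⟩
  · left
    refine ⟨⟨hx, hp, hq, hpq⟩, ?_⟩
    have hnz : ¬ NN (Real.log b * x.2 + t) = b ^ (x.2 - x.1) * NN (Real.log b * x.1 + t) := by
      intro h0
      apply hne
      rw [W_eq hb] at h1 h2
      rw [W_eq hb, W_eq hb, h0]
      rw [h0] at h2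
      exact (same hpq (not_lt.1 hbx) h1 h2).symm
    show 1 ≤ fd b x.1 x.2 t
    unfold fd
    rw [if_neg hnz, ff_eq hb t _ h1, ff_eq hb t _ h2, one_mul]

/-- the criterion for all pairs -/
lemma all_pairs {b : ℕ} (hb : 2 ≤ b) (S : Set (ℕ × ℕ))
    (hS : Summable (fun x : ℕ × ℕ => {x | x ∈ S ∧ x.1.Prime ∧ x.2.Prime ∧ x.1 < x.2}.indicator
      (fun x : ℕ × ℕ => Real.log x.1 / x.1 * (Real.log x.2 / x.2) +
        ((b : ℝ) ^ (x.2 - x.1))⁻¹ * (Real.log x.1 / x.1)) x)) :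
    ∀ᵐ β : ℝ, 0 < β → {x | x ∈ S ∧ IsPair b β x}.Finite := by
  refine Pool.Agent.W66S.ae_of_exp (P := fun β : ℝ => {x | x ∈ S ∧ IsPair b β x}.Finite) ?_
  have h := pairs_ae hb (f := fun p q t => ff p (Real.log b * p + t) * ff q (Real.log b * q + t))
    (G := fun p q => w p * w q + ((b : ℝ) ^ (q - p))⁻¹ * w p) (measurable_prod b)
    (fun _ _ _ => mul_nonneg (Pool.Agent.H305R2.ff_nonneg _ _) (Pool.Agent.H305R2.ff_nonneg _ _))
    (fun p q => by
      have : 0 ≤ ((b : ℝ) ^ (q - p))⁻¹ * w p := mul_nonneg (by positivity) (w_nonneg p)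
      linarith) (fun _ _ _ => le_rfl) (fun b0 => ff_bound hb b0)
    {x | x ∈ S ∧ x.1.Prime ∧ x.2.Prime ∧ x.1 < x.2} (fun x hx => ⟨hx.2.1.two_le, hx.2.2.2⟩) hS
  filter_upwards [h] with t ht
  refine ht.subset ?_
  rintro x ⟨hx, hp, hq, hpq, h1, h2⟩
  refine ⟨⟨hx, hp, hq, hpq⟩, ?_⟩
  show 1 ≤ ff x.1 (Real.log b * x.1 + t) * ff x.2 (Real.log b * x.2 + t)
  rw [ff_eq hb t _ h1, ff_eq hb t _ h2, one_mul]

lemma eventually_of_finite {T : Set (ℕ × ℕ)} (hT : T.Finite) :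
    ∀ᶠ p : ℕ in atTop, ∀ q : ℕ, (p, q) ∉ T := by
  have h1 : (Prod.fst '' T).Finite := hT.image _
  obtain ⟨M, hM⟩ := h1.bddAbove
  filter_upwards [eventually_gt_atTop M] with p hp q hq
  have := hM ⟨(p, q), hq, rfl⟩
  simp only at this
  omega

/-- close pairs, fixed `ε` -/
lemma close_fixed {b : ℕ} (hb : 2 ≤ b) {ε : ℝ} (hε : 0 < ε) : ∀ᵐ β : ℝ, 0 < β →
    ∀ᶠ p : ℕ in atTop, ∀ q : ℕ, IsPair b β (p, q) → (q : ℝ) ≤ p + p / Real.log p ^ (1 + ε) →
      W b β p = W b β q ∧ (q : ℝ) ≤ p + (1 + ε) * Real.log (Real.log p) / Real.log b := by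
  set S : Set (ℕ × ℕ) := {x | (x.2 : ℝ) ≤ x.1 + wid ε x.1} with hS
  set S' : Set (ℕ × ℕ) := {x | (x.2 : ℝ) ≤ x.1 + wid ε x.1 ∧
    (x.1 : ℝ) + (1 + ε) * Real.log (Real.log x.1) / Real.log b < x.2} with hS'
  have s1 := pair_sum hε
  have h1 := distinct hb S (by
    refine s1.congr fun x => ?_
    classical
    rw [Set.indicator_apply]
    refine if_congr ?_ rfl rfl
    simp only [Set.mem_ofPred_eq, hS]
    tauto)
  have h2 := all_pairs hb S' (by
    refine Summable.of_nonneg_of_le (fun x => ?_) (fun x => ?_) (s1.add (zero_sum hb hε))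
    · refine Set.indicator_nonneg (fun x _ => ?_) x
      exact add_nonneg (mul_nonneg (w_nonneg _) (w_nonneg _)) (mul_nonneg (by positivity) (w_nonneg _))
    · classical
      rw [Set.indicator_apply]
      by_cases hx : x ∈ {x : ℕ × ℕ | x ∈ S' ∧ x.1.Prime ∧ x.2.Prime ∧ x.1 < x.2}
      · rw [if_pos hx]
        obtain ⟨⟨g1, g2⟩, g3, g4, g5⟩ := hx
        rw [if_pos ⟨g3, g4, g5, g1⟩, if_pos ⟨g3, g5, g1, g2⟩]
        rfl
      · rw [if_neg hx]
        refine add_nonneg ?_ ?_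
        · split_ifs
          · exact mul_nonneg (w_nonneg _) (w_nonneg _)
          · exact le_rfl
        · split_ifs
          · exact mul_nonneg (by positivity) (w_nonneg _)
          · exact le_rfl)
  filter_upwards [h1, h2] with β h1 h2 hβ
  filter_upwards [eventually_of_finite (h1 hβ), eventually_of_finite (h2 hβ)] with p g1 g2 q hq hle
  constructor
  · by_contra hne
    exact g1 q ⟨hle, hq, hne⟩
  · by_contra hgt
    exact g2 q ⟨⟨hle, not_le.1 hgt⟩, hq⟩

lemma wid_anti {ε δ : ℝ} (h : δ ≤ ε) {p : ℕ} (hp : 1 ≤ Real.log p) :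
    (p : ℝ) / Real.log p ^ (1 + ε) ≤ p / Real.log p ^ (1 + δ) := by
  refine div_le_div_of_nonneg_left (Nat.cast_nonneg _) (Real.rpow_pos_of_pos (by linarith) _) ?_
  exact Real.rpow_le_rpow_of_exponent_le hp (by linarith)

/-- pairs `(p, f p)` -/
lemma graph {b : ℕ} (hb : 2 ≤ b) (f : ℕ → ℕ) : ∀ᵐ β : ℝ, 0 < β →
    {p | IsPair b β (p, f p) ∧ W b β p ≠ W b β (f p)}.Finite := by
  have hw : Summable (fun p : ℕ => w p * w p) := by
    have hlog : ∀ᶠ p : ℕ in atTop, ‖w p * w p‖ ≤ 1 / (p : ℝ) ^ (3 / 2 : ℝ) := by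
      have := (isLittleO_log_rpow_rpow_atTop 2 (show (0 : ℝ) < 1 / 2 by norm_num)).bound
        (show (0 : ℝ) < 1 by norm_num)
      have h2 := (tendsto_natCast_atTop_atTop (R := ℝ)).eventually this
      filter_upwards [h2, eventually_ge_atTop 1] with p h2 hp
      have hp1 : (1 : ℝ) ≤ p := by exact_mod_cast hp
      rw [Real.norm_of_nonneg (mul_nonneg (w_nonneg _) (w_nonneg _))]
      rw [Real.norm_of_nonneg (Real.rpow_nonneg (Real.log_nonneg hp1) _),
        Real.norm_of_nonneg (Real.rpow_nonneg (by linarith) _), one_mul, Real.rpow_two] at h2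
      unfold w
      have e : (p : ℝ) ^ (3 / 2 : ℝ) * (p : ℝ) ^ (1 / 2 : ℝ) = p * p := by
        rw [← Real.rpow_add (by linarith)]
        norm_num
        rw [sq]
      rw [div_mul_div_comm, div_le_div_iff₀ (by positivity) (by positivity), one_mul, ← e]
      have h3 : (0 : ℝ) ≤ (p : ℝ) ^ (3 / 2 : ℝ) := by positivity
      nlinarith
    exact Summable.of_norm_bounded_eventually_nat (Real.summable_one_div_nat_rpow.2 (by norm_num)) hlog
  have h := distinct hb {x : ℕ × ℕ | x.2 = f x.1} (by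
    refine summable_pairs (g := fun p => w p * w p) (fun x => ?_) (fun p => ?_) hw ?_
    · exact Set.indicator_nonneg (fun x _ => mul_nonneg (w_nonneg _) (w_nonneg _)) x
    · refine (Set.finite_singleton (f p)).subset fun q hq => ?_
      have := Set.mem_of_indicator_ne_zero hq
      exact this.1
    · filter_upwards [eventually_ge_atTop 3] with p hp
      have hs : ∀ q : ℕ, q ≠ f p → {x : ℕ × ℕ | x.2 = f x.1 ∧ x.1.Prime ∧
          x.2.Prime ∧ x.1 < x.2}.indicator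
          (fun x : ℕ × ℕ => Real.log x.1 / x.1 * (Real.log x.2 / x.2)) (p, q) = 0 := by
        intro q hq
        exact Set.indicator_of_notMem (fun h => hq h.1) _
      rw [tsum_eq_single (f p) hs]
      by_cases hlt : p < f p
      · refine (Set.indicator_le_self' (fun x _ => mul_nonneg (w_nonneg _) (w_nonneg _)) _).trans ?_
        exact mul_le_mul_of_nonneg_left (w_anti hp hlt.le) (w_nonneg p)
      · rw [Set.indicator_of_notMem (fun h => hlt h.2.2.2)]
        exact mul_nonneg (w_nonneg _) (w_nonneg _))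
  filter_upwards [h] with β h hβ
  refine ((h hβ).image Prod.fst).subset ?_
  rintro p ⟨h1, h2⟩
  exact ⟨(p, f p), ⟨rfl, h1, h2⟩, rfl⟩

theorem result :
    (∀ p : ℕ, p.Prime → W 2 1 p = 2 ^ p - 1) ∧
    ∀ b : ℕ, 2 ≤ b →
      (∀ᵐ β : ℝ, 0 < β → ∀ ε : ℝ, 0 < ε → ∀ᶠ p : ℕ in atTop, ∀ q : ℕ,
        IsPair b β (p, q) → (q : ℝ) ≤ p + p / Real.log p ^ (1 + ε) →
          W b β p = W b β q ∧ (q : ℝ) ≤ p + (1 + ε) * Real.log (Real.log p) / Real.log b) ∧
      (∀ f : ℕ → ℕ, ∀ᵐ β : ℝ, 0 < β → {p | IsPair b β (p, f p) ∧ W b β p ≠ W b β (f p)}.Finite) ∧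
      (∀ S : Set (ℕ × ℕ),
        Summable (fun x : ℕ × ℕ => {x | x ∈ S ∧ x.1.Prime ∧ x.2.Prime ∧ x.1 < x.2}.indicator
          (fun x : ℕ × ℕ => Real.log x.1 / x.1 * (Real.log x.2 / x.2)) x) →
        ∀ᵐ β : ℝ, 0 < β → {x | x ∈ S ∧ IsPair b β x ∧ W b β x.1 ≠ W b β x.2}.Finite) ∧
      (∀ S : Set (ℕ × ℕ),
        Summable (fun x : ℕ × ℕ => {x | x ∈ S ∧ x.1.Prime ∧ x.2.Prime ∧ x.1 < x.2}.indicator
          (fun x : ℕ × ℕ => Real.log x.1 / x.1 * (Real.log x.2 / x.2) +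
            ((b : ℝ) ^ (x.2 - x.1))⁻¹ * (Real.log x.1 / x.1)) x) →
        ∀ᵐ β : ℝ, 0 < β → {x | x ∈ S ∧ IsPair b β x}.Finite) := by
  refine ⟨fun p hp => mersenne hp, fun b hb => ⟨?_, fun f => graph hb f, fun S hS => distinct hb S hS,
    fun S hS => all_pairs hb S hS⟩⟩
  have h := ae_all_iff.2 fun n : ℕ => close_fixed hb (show (0 : ℝ) < 1 / ((n : ℝ) + 1) by positivity)
  filter_upwards [h] with β h hβ ε hε
  obtain ⟨n, hn⟩ := exists_nat_one_div_lt hε
  have hlog : Tendsto (fun p : ℕ => Real.log (p : ℝ)) atTop atTop :=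
    Real.tendsto_log_atTop.comp tendsto_natCast_atTop_atTop
  filter_upwards [h n hβ, hlog.eventually_ge_atTop 1] with p hp hl q hq hle
  obtain ⟨g1, g2⟩ := hp q hq (hle.trans (by linarith [wid_anti hn.le hl]))
  refine ⟨g1, g2.trans ?_⟩
  have hlb : 0 < Real.log b := Real.log_pos (by exact_mod_cast hb)
  have hll : 0 ≤ Real.log (Real.log p) := Real.log_nonneg hl
  have : (1 + 1 / ((n : ℝ) + 1)) * Real.log (Real.log p) / Real.log b ≤
      (1 + ε) * Real.log (Real.log p) / Real.log b := by gcongr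
  linarith

end Pool.Agent.Results.MP_9b2bac_nt.ClosePairs
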