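import Pool.Agent.X34.M.M2

set_option autoImplicit false

/-!
# Mersenne numbers with prime exponents all of whose prime factors are beyond the record size

The prime factors of `2 ^ p - 1`, `p` prime, are of the form `2 k p + 1`. For at least `X ^ (9 / 10)` primes `p` in `(X, 3 X]`
(in any class modulo a squarefree number) all of them, and all the primes dividing a number `a ^ p - b ^ p` but not
`a - b`, for all coprime integers `a`, `b` at once, exceed `c p f(p)`, where
`f(p) = log p (log₂ p)² log₄ p / (log₃ p)²` (iterated natural logarithms) is the size of the largest known gaps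
between primes. The same holds for all the primes `q` congruent to a fraction `j / i` modulo `p` with numerator and
denominator at most `J` in absolute value.

Proof: the record covering sieve with a prime in the middle (starting library, `Pool.Agent.TH101.RG.oneZ`, helper101)
for the family of the forms `z n + ℓ` with the variable coefficient `z`.
-/

namespace Pool.Agent.Results.MP_9b2bac_nt.FactorsBeyondRecord

/-- The record scale `f(x) = log x (log₂ x)² log₄ x / (log₃ x)²` (iterated natural logarithms). -/
noncomputable def f (x : ℝ) : ℝ :=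
  Real.log x * (Real.log (Real.log x)) ^ 2 * Real.log (Real.log (Real.log (Real.log x))) /
    (Real.log (Real.log (Real.log x))) ^ 2

/-- For every `J` and every squarefree `d` there is `c > 0` such that for all large `X` and all `h` prime to `d` at
least `X ^ (9 / 10)` primes `p` with `X < p ≤ 3 X`, `p ≡ h (mod d)` have the following properties.
(1) All prime factors of the Mersenne number `2 ^ p - 1` are larger than `c p f(p)`.
(2) For all coprime integers `a`, `b`, all prime factors of `a ^ p - b ^ p` which do not divide `a - b` are larger than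
`c p f(p)`.
(3) For all integers `i`, `j` with `1 ≤ |i|, |j| ≤ J`, every prime `q` with `i q ≡ j (mod p)` and `i q ≠ j` is larger than
`c p f(p)`. -/
theorem result (J d : ℕ) (hd : Squarefree d) : ∃ c : ℝ, 0 < c ∧ ∃ X₀ : ℝ, ∀ X : ℝ, X₀ ≤ X →
    ∀ h : ℕ, h.Coprime d →
    X ^ (9 / 10 : ℝ) ≤ ({p : ℕ | p.Prime ∧ X < p ∧ (p : ℝ) ≤ 3 * X ∧ p ≡ h [MOD d] ∧
      (∀ q : ℕ, q.Prime → q ∣ 2 ^ p - 1 → c * (p * f p) < q) ∧
      (∀ a b : ℤ, IsCoprime a b → ∀ q : ℕ, q.Prime → (q : ℤ) ∣ a ^ p - b ^ p → ¬ (q : ℤ) ∣ a - b →
        c * (p * f p) < q) ∧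
      (∀ i j : ℤ, 1 ≤ |i| → |i| ≤ J → 1 ≤ |j| → |j| ≤ J → ∀ q : ℕ, q.Prime → i * q ≠ j →
        (p : ℤ) ∣ i * q - j → c * (p * f p) < q)}.ncard : ℝ) :=
  Pool.Agent.X34.M.mersenne J d hd

end Pool.Agent.Results.MP_9b2bac_nt.FactorsBeyondRecord
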