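import Mathlib
import Pool.Agent.X3.LinTwin

/-!
# Linear complexity of the counting function of the Mersenne exponents

Let `M b n` be the number of primes `p ≤ n` such that the repunit `1 + b + … + b^(p-1)` is prime
(`b = 2`: the Mersenne exponents). Over every field, the linear complexity of the word
`M b 1, …, M b N` lies between `q / (100 log q log log q)` and `q`, where `q` is the largest such
prime up to `N`.
-/

set_option autoImplicit false

namespace Pool.Agent.Results.MP_9b2bac_nt.LinearComplexity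

open Filter

/-- the number of primes `p ≤ n` such that `1 + b + … + b^(p-1) = (b^p - 1)/(b - 1)` is prime -/
def M (b n : ℕ) : ℕ :=
  ((Finset.Icc 1 n).filter fun p => p.Prime ∧ (∑ i ∈ Finset.range p, b ^ i).Prime).card

/-- the word `x 1, …, x N` satisfies a linear recurrence of order `L` with coefficients in `F` -/
def Recurrent {F : Type} [Field F] (x : ℕ → F) (N L : ℕ) : Prop :=
  ∃ c : Fin L → F, ∀ n, 1 ≤ n → n + L ≤ N → x (n + L) = ∑ i : Fin L, c i * x (n + i)

open Pool.Agent.X3.LinMult in
lemma main {F : Type} [Field F] {S : ℕ → F} {N L : ℕ}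
    (hS : ∀ n, 2 ≤ n → n ≤ N → ¬ n.Prime → S n = S (n - 1)) (h : Recurrent S N L)
    (hne : ∃ n, L + 1 < n ∧ n ≤ N ∧ S n ≠ S (n - 1)) :
    2 ^ Nat.primeCounting (N / (L + 1)) ≤ L := by
  classical
  obtain ⟨y, hy⟩ : ∃ y, y = N / (L + 1) := ⟨_, rfl⟩
  rw [← hy]
  obtain ⟨P, hP⟩ : ∃ P : Finset ℕ, P = (Finset.range (y + 1)).filter Nat.Prime := ⟨_, rfl⟩
  have hPm : ∀ p ∈ P, p.Prime ∧ p * (L + 1) ≤ N := by
    intro p hp
    rw [hP, Finset.mem_filter, Finset.mem_range] at hp
    refine ⟨hp.2, ?_⟩
    calc p * (L + 1) ≤ y * (L + 1) := Nat.mul_le_mul_right _ (by omega)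
      _ ≤ N := by rw [hy]; exact Nat.div_mul_le_self _ _
  have hcop : (P : Set ℕ).Pairwise Nat.Coprime := by
    intro p hp q hq hne
    exact (Nat.coprime_primes (hPm p hp).1 (hPm q hq).1).2 hne
  have hrec : Pool.Agent.X3.LinMult.Recurrent (fun n => S (n + 1) - S n) (N - 1) L := by
    obtain ⟨c, hc⟩ := h
    refine ⟨c, fun n hn1 hn2 => ?_⟩
    have e1 := hc n hn1 (by omega)
    have e2 := hc (n + 1) (by omega) (by omega)
    have e3 : n + 1 + L = n + L + 1 := by ring
    rw [e3] at e2
    simp only [e1, e2]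
    rw [← Finset.sum_sub_distrib]
    apply Finset.sum_congr rfl
    intro i _
    have e4 : n + 1 + (i : ℕ) = n + i + 1 := by ring
    rw [e4]
    ring
  have h1 := window_one hrec P (fun p hp => (hPm p hp).1.one_lt.le) hcop (fun p => 2 * p - 1) (by
    intro p hp
    obtain ⟨hp1, hp2⟩ := hPm p hp
    have hp3 := hp1.two_le
    refine ⟨by omega, fun t ht => ?_⟩
    have h5 : p * t + p ≤ p * L := by
      have : p * (t + 1) ≤ p * L := Nat.mul_le_mul_left _ ht
      rwa [mul_add, mul_one] at this
    have h6 : 2 * p - 1 + p * t + 1 ≤ N := by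
      rw [mul_add, mul_one] at hp2
      omega
    refine ⟨by omega, ?_⟩
    have h7 : 2 * p - 1 + p * t + 1 = p * (t + 2) := by
      have : p * (t + 2) = p * t + 2 * p := by ring
      rw [this]
      omega
    have h8 := hS (2 * p - 1 + p * t + 1) (by omega) h6 (by
      rw [h7]
      exact Nat.not_prime_mul (by omega) (by omega))
    rw [Nat.add_sub_cancel] at h8
    simp only [h8, sub_self]) (by
    obtain ⟨n, hn1, hn2, hn3⟩ := hne
    refine ⟨n - 1, by omega, by omega, ?_⟩
    show S (n - 1 + 1) - S (n - 1) ≠ 0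
    rw [Nat.sub_add_cancel (by omega)]
    exact sub_ne_zero.2 hn3)
  have h2 : Nat.primeCounting y = P.card := by
    rw [Nat.primeCounting, Nat.primeCounting', Nat.count_eq_card_filter_range, hP]
  rw [h2]
  exact h1

lemma M_succ (b n : ℕ) : M b (n + 1) = M b n +
    if (n + 1).Prime ∧ (∑ i ∈ Finset.range (n + 1), b ^ i).Prime then 1 else 0 := by
  unfold M
  rw [← Finset.insert_Icc_right_eq_Icc_add_one (by omega), Finset.filter_insert]
  split_ifs with h
  · rw [Finset.card_insert_of_notMem]
    intro hmem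
    have := (Finset.mem_Icc.1 (Finset.mem_filter.1 hmem).1).2
    omega
  · rfl

lemma M_mono (b : ℕ) : Monotone (M b) := by
  apply monotone_nat_of_le_succ
  intro n
  rw [M_succ]
  omega

/-- a repunit with a composite number of digits is composite -/
lemma comp {b : ℕ} (hb : 2 ≤ b) {n : ℕ} (h : (∑ i ∈ Finset.range n, b ^ i).Prime) : n.Prime := by
  by_contra hn
  have hn2 : 2 ≤ n := by
    by_contra hcon
    have : n = 0 ∨ n = 1 := by omega
    rcases this with h1 | h1
    · subst h1
      simp at h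
      exact Nat.not_prime_zero h
    · subst h1
      simp at h
      exact Nat.not_prime_one h
  obtain ⟨u, ⟨v, huv⟩, hu2, hu3⟩ := Nat.exists_dvd_of_not_prime2 hn2 hn
  obtain ⟨x, rfl⟩ : ∃ x, b = x + 1 := ⟨b - 1, by omega⟩
  have e1 := geom_sum_mul_add x u
  have e2 := geom_sum_mul_add x n
  have hd : (∑ i ∈ Finset.range u, (x + 1) ^ i) ∣ ∑ i ∈ Finset.range n, (x + 1) ^ i := by
    apply Nat.dvd_of_mul_dvd_mul_right (show 0 < x by omega)
    have e3 : (∑ i ∈ Finset.range u, (x + 1) ^ i) * x = (x + 1) ^ u - 1 := by omega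
    have e4 : (∑ i ∈ Finset.range n, (x + 1) ^ i) * x = ((x + 1) ^ u) ^ v - 1 ^ v := by
      rw [← pow_mul, ← huv, one_pow]
      omega
    rw [e3, e4]
    exact Nat.sub_dvd_pow_sub_pow _ _ _
  have h1 : ∑ i ∈ Finset.range 2, (x + 1) ^ i ≤ ∑ i ∈ Finset.range u, (x + 1) ^ i :=
    Finset.sum_le_sum_of_subset (Finset.range_mono hu2)
  have h2 : ∑ i ∈ Finset.range (u + 1), (x + 1) ^ i ≤ ∑ i ∈ Finset.range n, (x + 1) ^ i :=
    Finset.sum_le_sum_of_subset (Finset.range_mono (by omega))
  rw [Finset.sum_range_succ] at h2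
  have h3 : 0 < (x + 1) ^ u := by positivity
  rw [Finset.sum_range_succ, Finset.sum_range_one] at h1
  rcases (Nat.dvd_prime h).1 hd with h4 | h4
  · rw [h4] at h1
    simp at h1
  · omega

/-- (1) Let `S` be a sequence of elements of a field `F` with `S n = S (n - 1)` for all `n ≤ N`,
`n ≥ 2`, which are not prime. If `S 1, …, S N` satisfy a linear recurrence of order `L` over `F` and
`S n ≠ S (n - 1)` for some `n` with `L + 1 < n ≤ N`, then `2^π(N/(L+1)) ≤ L`, where `π` counts the
primes.

Let `b ≥ 2` and let `M b n` be the number of primes `p ≤ n` such that `1 + b + … + b^(p-1)` is prime.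

(2) If `q ≥ 16` is such a prime and `q ≤ N`, then each linear recurrence over a field `F` satisfied
by `M b 1, …, M b N` (considered in `F`) has order at least `q / (100 log q log log q)`.

(3) If `q ≥ 1` and `M b q = M b N`, then `M b 1, …, M b N` satisfy a linear recurrence of order `q`.

(4) For every field `F`, `M b n` tends to infinity if and only if the linear complexities over `F` of
the words `M b 1, …, M b N`, `N = 1, 2, …`, are unbounded. -/
theorem result :
    (∀ (F : Type) [Field F] (S : ℕ → F) (N L : ℕ),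
      (∀ n, 2 ≤ n → n ≤ N → ¬ n.Prime → S n = S (n - 1)) → Recurrent S N L →
      (∃ n, L + 1 < n ∧ n ≤ N ∧ S n ≠ S (n - 1)) → 2 ^ Nat.primeCounting (N / (L + 1)) ≤ L) ∧
    (∀ b : ℕ, 2 ≤ b → ∀ (F : Type) [Field F],
      (∀ q N L : ℕ, 16 ≤ q → q.Prime → (∑ i ∈ Finset.range q, b ^ i).Prime → q ≤ N →
        Recurrent (fun n => (M b n : F)) N L →
        (q : ℝ) / (100 * Real.log q * Real.log (Real.log q)) ≤ L) ∧
      (∀ q N : ℕ, 1 ≤ q → M b q = M b N → Recurrent (fun n => (M b n : F)) N q) ∧
      (Tendsto (M b) atTop atTop ↔ ∀ L : ℕ, ∃ N : ℕ, ¬ Recurrent (fun n => (M b n : F)) N L)) := by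
  refine ⟨fun F _ S N L hS h hne => main hS h hne, fun b hb F _ => ?_⟩
  have hjump : ∀ q : ℕ, q.Prime → (∑ i ∈ Finset.range q, b ^ i).Prime →
      (M b q : F) ≠ M b (q - 1) := by
    intro q hq1 hq2
    obtain ⟨r, rfl⟩ : ∃ r, q = r + 1 := ⟨q - 1, by have := hq1.pos; omega⟩
    rw [Nat.add_sub_cancel, M_succ, if_pos ⟨hq1, hq2⟩]
    push_cast
    intro h
    have : (1 : F) = 0 := by linear_combination h
    exact one_ne_zero this
  have hstay : ∀ n : ℕ, 2 ≤ n → ¬ n.Prime → (M b n : F) = M b (n - 1) := by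
    intro n hn1 hn2
    obtain ⟨r, rfl⟩ : ∃ r, n = r + 1 := ⟨n - 1, by omega⟩
    rw [Nat.add_sub_cancel, M_succ, if_neg (fun h => hn2 h.1), add_zero]
  have hpre : ∀ q N L : ℕ, q ≤ N → Recurrent (fun n => (M b n : F)) N L →
      Recurrent (fun n => (M b n : F)) q L := by
    rintro q N L hqN ⟨c, hc⟩
    exact ⟨c, fun n h1 h2 => hc n h1 (h2.trans hqN)⟩
  have h3 : ∀ q N : ℕ, 1 ≤ q → M b q = M b N → Recurrent (fun n => (M b n : F)) N q := by
    intro q N hq hM
    refine ⟨fun i => if (i : ℕ) = q - 1 then 1 else 0, fun n hn1 hn2 => ?_⟩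
    rw [Finset.sum_eq_single (⟨q - 1, by omega⟩ : Fin q)]
    · simp only [if_true, one_mul]
      have e1 : M b (n + q) = M b q :=
        le_antisymm (hM ▸ M_mono b hn2) (M_mono b (by omega))
      have e2 : M b (n + (q - 1)) = M b q :=
        le_antisymm (hM ▸ M_mono b (by omega)) (M_mono b (by omega))
      rw [e1, e2]
    · intro i _ hi
      show (if (i : ℕ) = q - 1 then (1 : F) else 0) * _ = 0
      rw [if_neg, zero_mul]
      intro h
      apply hi
      exact Fin.ext h
    · intro h
      exact absurd (Finset.mem_univ _) h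
  refine ⟨?_, h3, ?_⟩
  · intro q N L hq16 hq1 hq2 hqN h
    have h' := hpre q N L hqN h
    have hNR : (16 : ℝ) ≤ q := by exact_mod_cast hq16
    have hlog : 2.77 ≤ Real.log q := by
      have h1 : Real.log 16 ≤ Real.log q := Real.log_le_log (by norm_num) hNR
      have h2 : Real.log 16 = 4 * Real.log 2 := by
        rw [show (16 : ℝ) = 2 ^ 4 by norm_num, Real.log_pow]; norm_num
      have := Real.log_two_gt_d9
      linarith
    have hll : 1 ≤ Real.log (Real.log q) := by
      have h1 : Real.log (Real.exp 1) ≤ Real.log (Real.log q) := by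
        apply Real.log_le_log (Real.exp_pos _)
        have := Real.exp_one_lt_d9
        linarith
      rwa [Real.log_exp] at h1
    rcases Nat.lt_or_ge (L + 1) q with hL | hL
    · have h4 := main (fun n hn1 _ hn3 => hstay n hn1 hn3) h' ⟨q, hL, le_rfl, hjump q hq1 hq2⟩
      have hL1 : 1 ≤ L := le_trans Nat.one_le_two_pow h4
      exact Pool.Agent.X3.LinMult.num_lin hq16 hL1 (by omega) (by omega)
    · have hLR : (q : ℝ) ≤ L + 1 := by exact_mod_cast hL
      have h5 : (q : ℝ) / (100 * Real.log q * Real.log (Real.log q)) ≤ q / 100 := by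
        apply div_le_div_of_nonneg_left (by linarith) (by norm_num)
        nlinarith
      linarith
  · constructor
    · intro hinf L
      by_contra hcon
      push Not at hcon
      obtain ⟨y, hy⟩ : ∃ y, L + 1 ≤ Nat.primeCounting y := by
        have := Nat.tendsto_primeCounting.eventually_ge_atTop (L + 1)
        exact this.exists
      obtain ⟨q, hq1, hq2⟩ : ∃ q, y * (L + 1) + L + 1 < q ∧ M b q ≠ M b (q - 1) := by
        by_contra hno
        push Not at hno
        have hconst : ∀ n, M b (y * (L + 1) + L + 1 + n) = M b (y * (L + 1) + L + 1) := by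
          intro n
          induction n with
          | zero => rfl
          | succ n ih =>
            rw [hno _ (by omega)]
            exact ih
        obtain ⟨n, hn⟩ := (hinf.eventually_ge_atTop (M b (y * (L + 1) + L + 1) + 1)).exists
        have h6 : M b n ≤ M b (y * (L + 1) + L + 1 + n) := M_mono b (by omega)
        rw [hconst] at h6
        omega
      have hq3 : q.Prime ∧ (∑ i ∈ Finset.range q, b ^ i).Prime := by
        by_contra hno
        apply hq2
        obtain ⟨r, rfl⟩ : ∃ r, q = r + 1 := ⟨q - 1, by omega⟩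
        rw [M_succ, if_neg hno]
        rfl
      have h4 := main (fun n hn1 _ hn3 => hstay n hn1 hn3) (hcon q)
        ⟨q, by omega, le_rfl, hjump q hq3.1 hq3.2⟩
      have h5 : y ≤ q / (L + 1) := by
        rw [Nat.le_div_iff_mul_le (by omega)]
        omega
      have h6 : L + 1 ≤ Nat.primeCounting (q / (L + 1)) := hy.trans (Nat.monotone_primeCounting h5)
      have h7 : 2 ^ (L + 1) ≤ L := (Nat.pow_le_pow_right (by norm_num) h6).trans h4
      have h8 : L + 1 < 2 ^ (L + 1) := Nat.lt_two_pow_self
      omega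
    · intro h
      by_contra hno
      obtain ⟨B, hB⟩ : ∃ B, ∀ n, M b n < B := by
        by_contra hcon
        push Not at hcon
        exact hno (tendsto_atTop_atTop_of_monotone (M_mono b) hcon)
      have hne : (Set.range (M b)).Nonempty := ⟨M b 0, 0, rfl⟩
      have hbdd : BddAbove (Set.range (M b)) := ⟨B, by rintro _ ⟨n, rfl⟩; exact (hB n).le⟩
      obtain ⟨q, hq⟩ := Nat.sSup_mem hne hbdd
      have hmax : ∀ n, M b n ≤ M b q := by
        intro n
        rw [hq]
        exact le_csSup hbdd ⟨n, rfl⟩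
      obtain ⟨N, hN⟩ := h (q + 1)
      apply hN
      rcases Nat.lt_or_ge N (q + 1) with h1 | h1
      · refine ⟨fun _ => 0, fun n h2 h3 => ?_⟩
        omega
      · exact h3 (q + 1) N (by omega) (le_antisymm (M_mono b h1)
          ((hmax N).trans (M_mono b (by omega))))

end Pool.Agent.Results.MP_9b2bac_nt.LinearComplexity
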