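import Pool.Agent.X108.Pat.Main

/-!
# Primes just below the powers `α ^ p`, `p` prime, and `α ^ (b n)`, for almost every real `α > 1`

The real analogue of the Mersenne numbers `2 ^ p - 1`: let `b n` be any sequence of real numbers that tends to
infinity, for instance the sequence of all primes.  For almost every real `α > 1` the primes just below
`y = α ^ (b n)` show every pattern for a set of indices `n` of positive upper density: for all
`0 < lam ≤ Lam` and `m ≥ 0` there are exactly `m` primes in `(y - lam log y, y)` and no further prime in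
`(y - Lam log y, y)`; here `log y = b n log α`.
-/

set_option autoImplicit false

open MeasureTheory Filter Topology

namespace Pool.Agent.Results.MP_9b2bac_nt.PatternsAtRealPowers

/-- the number of the primes in the open interval `(y - H, y)` -/
noncomputable def below (y H : ℝ) : ℕ := {p : ℕ | p.Prime ∧ y - H < p ∧ (p : ℝ) < y}.ncard

/-- exactly `m` primes in `(y - lam log y, y)` and in `(y - Lam log y, y)` -/
def Pattern (lam Lam : ℝ) (m : ℕ) (y : ℝ) : Prop :=
  below y (lam * Real.log y) = m ∧ below y (Lam * Real.log y) = m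

/-- the set `S` has upper density at least `c` -/
def UpperDensity (S : Set ℕ) (c : ℝ) : Prop := ∃ᶠ N : ℕ in atTop, c * N ≤ ({n : ℕ | n < N ∧ n ∈ S}.ncard : ℝ)

lemma pattern_of {lam Lam : ℝ} {m : ℕ} {y : ℝ} (h : Pool.Agent.H749R6.CM.Q lam Lam m y)
    (hl : lam ≤ Lam) (hy : 1 ≤ y) : Pattern lam Lam m y := by
  obtain ⟨ha, hb⟩ := h
  refine ⟨ha, ?_⟩
  have h0 : 0 ≤ Real.log y := Real.log_nonneg hy
  have h1 : lam * Real.log y ≤ Lam * Real.log y := mul_le_mul_of_nonneg_right hl h0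
  have hset : {p : ℕ | p.Prime ∧ y - Lam * Real.log y < p ∧ (p : ℝ) < y} =
      {p : ℕ | p.Prime ∧ y - lam * Real.log y < p ∧ (p : ℝ) < y} := by
    ext p
    constructor
    · rintro ⟨hp, h4, h5⟩
      exact ⟨hp, hb p hp h4 h5, h5⟩
    · rintro ⟨hp, h4, h5⟩
      exact ⟨hp, by linarith, h5⟩
  show ({p : ℕ | p.Prime ∧ y - Lam * Real.log y < p ∧ (p : ℝ) < y}).ncard = m
  rw [hset]
  exact ha

/-- finitely many indices do not matter -/
lemma freq_shift {P R : ℕ → Prop} {c : ℝ} (hc : 0 < c)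
    (h : ∃ᶠ N : ℕ in atTop, c * N ≤ ({n : ℕ | n < N ∧ P n}.ncard : ℝ)) (n₀ : ℕ)
    (hPR : ∀ n, n₀ ≤ n → P n → R n) : UpperDensity {n | R n} (c / 2) := by
  have h1 : ∀ᶠ N : ℕ in atTop, 2 * (n₀ : ℝ) / c ≤ N :=
    tendsto_natCast_atTop_atTop.eventually_ge_atTop _
  refine (h.and_eventually h1).mono ?_
  rintro N ⟨h2, h3⟩
  rw [div_le_iff₀ hc] at h3
  have hfin : {n : ℕ | n < N ∧ n ∈ {n | R n}}.Finite := (Set.finite_Iio N).subset fun n hn => hn.1
  have h4 : {n : ℕ | n < N ∧ P n} ⊆ {n : ℕ | n < N ∧ n ∈ {n | R n}} ∪ Set.Iio n₀ := by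
    rintro n ⟨hn, hp⟩
    by_cases h5 : n < n₀
    · exact Or.inr h5
    · exact Or.inl ⟨hn, hPR n (not_lt.1 h5) hp⟩
  have h5 := (Set.ncard_le_ncard h4 (hfin.union (Set.finite_Iio n₀))).trans (Set.ncard_union_le _ _)
  rw [Set.ncard_eq_toFinset_card' (Set.Iio n₀), Set.toFinset_Iio, Nat.card_Iio] at h5
  have h6 : ({n : ℕ | n < N ∧ P n}.ncard : ℝ) ≤ ({n : ℕ | n < N ∧ n ∈ {n | R n}}.ncard : ℝ) + n₀ := by
    exact_mod_cast h5
  linarith

theorem result (b : ℕ → ℝ) (hb : Tendsto b atTop atTop) :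
    ∀ᵐ α : ℝ, 1 < α → ∀ (lam Lam : ℝ) (m : ℕ), 0 < lam → lam ≤ Lam →
      ∃ c : ℝ, 0 < c ∧ UpperDensity {n | Pattern lam Lam m (α ^ b n)} c := by
  filter_upwards [Pool.Agent.X108.Pat.powers b hb] with α hα h1
  obtain ⟨hA, -⟩ := hα h1
  obtain ⟨n₀, hn₀⟩ := (hb.eventually_ge_atTop 0).exists_forall_of_atTop
  intro lam Lam m hl hL
  obtain ⟨c, hc, hf⟩ := hA lam Lam m hl hL
  exact ⟨c / 2, by positivity, freq_shift hc hf n₀ fun n hn h =>
    pattern_of h hL (Real.one_le_rpow h1.le (hn₀ n hn))⟩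

end Pool.Agent.Results.MP_9b2bac_nt.PatternsAtRealPowers
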